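import Pool.Agent.Lib.MP_a1cc03_ag.Stmt2

/-!
# Homomorphisms of elliptic curves (MP_a1cc03_ag): definition
-/

noncomputable section

namespace Pool.Agent.ZC

open WeierstrassCurve

/-- The homomorphism `φ` from the group of `K`-points of `W₁` to that of `W₂` is given by a morphism of
curves: for every function field `F/K` (that is, for every curve `C` over `K`) and every `F`-point `P` of `W₁`
(that is, every morphism from `C` to `W₁`) there is an `F`-point `Q` of `W₂`, the composition of `P` and the
morphism, whose value at every place `v` is `φ` of the value of `P`. -/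
def IsHom {K : Type} [Field K] [DecidableEq K] (W₁ W₂ : WeierstrassCurve K)
    (φ : W₁.toAffine.Point →+ W₂.toAffine.Point) : Prop :=
  ∀ (F : Type) [Field F] [Algebra K F], IsFunctionField K F →
    ∀ P : (W₁.map (algebraMap K F)).toAffine.Point,
      ∃ Q : (W₂.map (algebraMap K F)).toAffine.Point,
        ∀ (v : Place K F) (a : W₁.toAffine.Point), Specializes v W₁ P a → Specializes v W₂ Q (φ a)

end Pool.Agent.ZC
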