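import Pool.Agent.Lib.MP_a1cc03_ag.V4_Product

/-! # Zero-cycles supported on a translate -/

noncomputable section

namespace Pool.Agent.ZC

open WeierstrassCurve

variable {K : Type} [Field K] [IsAlgClosed K] [CharZero K] [DecidableEq K] {n : ℕ}

theorem sh_pair (W : Fin n → WeierstrassCurve K) [∀ i, (W i).IsElliptic]
    (c : ∀ i, (W i).toAffine.Point) {k k' : Fin n} (hk : k ≠ k') {a : (W k).toAffine.Point}
    {b : (W k').toAffine.Point} (h : TorsSym (W k) (W k') a b) :
    FreeAbelianGroup.of (Function.update (Function.update c k (c k + a)) k' (c k' + b))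
      - FreeAbelianGroup.of (Function.update (Function.update c k (c k + a)) k' (c k'))
      - FreeAbelianGroup.of (Function.update (Function.update c k (c k)) k' (c k' + b))
      + FreeAbelianGroup.of (Function.update (Function.update c k (c k)) k' (c k')) ∈ TorsPi W := by
  obtain ⟨π, hπ⟩ : ∃ π : FreeAbelianGroup (∀ i, (W i).toAffine.Point) →+
      FreeAbelianGroup (∀ i, (W i).toAffine.Point) ⧸ TorsPi W, ∀ z, π z = 0 ↔ z ∈ TorsPi W :=
    ⟨QuotientAddGroup.mk' (TorsPi W), fun z => by
      rw [QuotientAddGroup.mk'_apply, QuotientAddGroup.eq_zero_iff]⟩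
  obtain ⟨F, hF⟩ : ∃ F : (W k).toAffine.Point → (W k').toAffine.Point →
      FreeAbelianGroup (∀ i, (W i).toAffine.Point) ⧸ TorsPi W, ∀ x y,
      F x y = π (FreeAbelianGroup.of (Function.update (Function.update c k x) k' y)) :=
    ⟨_, fun x y => rfl⟩
  have hx : ∀ x x' y, F (x + x') y = F x y + F x' y - F 0 y := by
    intro x x' y
    have h1 := (hπ _).2 (RatEqPi_le_TorsPi W (single_rel W (Function.update c k' y) k x x'))
    simp only [map_add, map_sub] at h1
    rw [Function.update_comm hk.symm, Function.update_comm hk.symm, Function.update_comm hk.symm,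
      Function.update_comm hk.symm, ← hF, ← hF, ← hF, ← hF] at h1
    rw [← sub_eq_zero, ← neg_eq_zero, ← h1]
    abel
  have hy : ∀ x y y', F x (y + y') = F x y + F x y' - F x 0 := by
    intro x y y'
    have h1 := (hπ _).2 (RatEqPi_le_TorsPi W (single_rel W (Function.update c k x) k' y y'))
    simp only [map_add, map_sub] at h1
    rw [← hF, ← hF, ← hF, ← hF] at h1
    rw [← sub_eq_zero, ← neg_eq_zero, ← h1]
    abel
  have hab : F a b - F a 0 - F 0 b + F 0 0 = 0 := by
    have h1 := (hπ _).2 (pair_rel W c hk h)
    simp only [map_add, map_sub] at h1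
    rw [← hF, ← hF, ← hF, ← hF] at h1
    exact h1
  rw [← hπ]
  simp only [map_add, map_sub]
  rw [← hF, ← hF, ← hF, ← hF, hx, hx, hy, hy, hy, ← hab]
  abel

/-- the point with the coordinates of `c + x` in `S` and those of `c` outside `S` -/
def sh_pt {W : Fin n → WeierstrassCurve K} (c x : ∀ i, (W i).toAffine.Point) (S : Finset (Fin n)) :
    ∀ i, (W i).toAffine.Point := fun i => if i ∈ S then c i + x i else c i

theorem sh_step (W : Fin n → WeierstrassCurve K) [∀ i, (W i).IsElliptic]
    (c x : ∀ i, (W i).toAffine.Point)
    (h : ∀ k k', k ≠ k' → TorsSym (W k) (W k') (x k) (x k')) (S : Finset (Fin n)) :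
    ∀ k, k ∉ S → FreeAbelianGroup.of (sh_pt c x (insert k S)) - FreeAbelianGroup.of (sh_pt c x S)
      - FreeAbelianGroup.of (Function.update c k (c k + x k)) + FreeAbelianGroup.of c ∈ TorsPi W := by
  induction S using Finset.induction_on with
  | empty =>
    intro k _
    have e1 : sh_pt c x (insert k ∅) = Function.update c k (c k + x k) := by
      funext i
      unfold sh_pt
      by_cases hi : i = k
      · subst hi; simp
      · simp [hi]
    have e2 : sh_pt c x ∅ = c := by
      funext i
      simp [sh_pt]
    rw [e1, e2]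
    have : FreeAbelianGroup.of (Function.update c k (c k + x k)) - FreeAbelianGroup.of c
      - FreeAbelianGroup.of (Function.update c k (c k + x k)) + FreeAbelianGroup.of c =
        (0 : FreeAbelianGroup (∀ i, (W i).toAffine.Point)) := by abel
    rw [this]
    exact zero_mem _
  | insert k' S' hk' ih =>
    intro k hk
    rw [Finset.mem_insert, not_or] at hk
    obtain ⟨hkk, hkS⟩ := hk
    have hc1 : sh_pt c x S' k' = c k' := by unfold sh_pt; rw [if_neg hk']
    have hc2 : sh_pt c x S' k = c k := by unfold sh_pt; rw [if_neg hkS]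
    have hp := sh_pair W (sh_pt c x S') (k := k') (k' := k) (Ne.symm hkk) (h k' k (Ne.symm hkk))
    rw [hc1, hc2] at hp
    have e1 : Function.update (Function.update (sh_pt c x S') k' (c k' + x k')) k (c k + x k) =
        sh_pt c x (insert k (insert k' S')) := by
      funext i
      unfold sh_pt
      by_cases hi : i = k
      · subst hi; simp
      · by_cases hi' : i = k'
        · subst hi'; simp [hi]
        · simp [hi, hi']
    have e2 : Function.update (Function.update (sh_pt c x S') k' (c k' + x k')) k (c k) =
        sh_pt c x (insert k' S') := by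
      funext i
      unfold sh_pt
      by_cases hi : i = k
      · subst hi; simp [hkk, hkS]
      · by_cases hi' : i = k'
        · subst hi'; simp [hi]
        · simp [hi, hi']
    have e3 : Function.update (Function.update (sh_pt c x S') k' (c k')) k (c k + x k) =
        sh_pt c x (insert k S') := by
      funext i
      unfold sh_pt
      by_cases hi : i = k
      · subst hi; simp
      · by_cases hi' : i = k'
        · subst hi'; simp [hi, hk']
        · simp [hi, hi']
    have e4 : Function.update (Function.update (sh_pt c x S') k' (c k')) k (c k) =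
        sh_pt c x S' := by
      funext i
      unfold sh_pt
      by_cases hi : i = k
      · subst hi; simp [hkS]
      · by_cases hi' : i = k'
        · subst hi'; simp [hi, hk']
        · simp [hi, hi']
    rw [e1, e2, e3, e4] at hp
    have := add_mem hp (ih k hkS)
    convert this using 1
    abel

theorem sh_all (W : Fin n → WeierstrassCurve K) [∀ i, (W i).IsElliptic]
    (c x : ∀ i, (W i).toAffine.Point)
    (h : ∀ k k', k ≠ k' → TorsSym (W k) (W k') (x k) (x k')) (S : Finset (Fin n)) :
    FreeAbelianGroup.of (sh_pt c x S) - FreeAbelianGroup.of c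
      - ∑ k ∈ S, (FreeAbelianGroup.of (Function.update c k (c k + x k)) - FreeAbelianGroup.of c)
        ∈ TorsPi W := by
  induction S using Finset.induction_on with
  | empty =>
    have e2 : sh_pt c x ∅ = c := by
      funext i
      simp [sh_pt]
    rw [e2, Finset.sum_empty, sub_self, sub_zero]
    exact zero_mem _
  | insert k S hk ih =>
    have h1 := sh_step W c x h S k hk
    rw [Finset.sum_insert hk]
    have := add_mem h1 ih
    convert this using 1
    abel

theorem sh_split (W : Fin n → WeierstrassCurve K) [∀ i, (W i).IsElliptic]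
    (c x : ∀ i, (W i).toAffine.Point)
    (h : ∀ k k', k ≠ k' → TorsSym (W k) (W k') (x k) (x k')) :
    FreeAbelianGroup.of (c + x) - FreeAbelianGroup.of c
      - ∑ k, (FreeAbelianGroup.of (Function.update c k (c k + x k)) - FreeAbelianGroup.of c)
        ∈ TorsPi W := by
  have h1 := sh_all W c x h Finset.univ
  have e : sh_pt c x Finset.univ = c + x := by
    funext i
    simp [sh_pt]
  rw [e] at h1
  exact h1

/-- the homomorphism `a ↦ [c + a] - [c]`, `a` in the coordinate `k` -/
theorem sh_hom (W : Fin n → WeierstrassCurve K) [∀ i, (W i).IsElliptic]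
    (c : ∀ i, (W i).toAffine.Point) (k : Fin n) :
    ∃ η : (W k).toAffine.Point →+
      (FreeAbelianGroup (∀ i, (W i).toAffine.Point) ⧸ RatEqPi W),
      ∀ a, η a = QuotientAddGroup.mk' (RatEqPi W)
        (FreeAbelianGroup.of (Function.update c k (c k + a)) - FreeAbelianGroup.of c) := by
  obtain ⟨π, hπ, hπe⟩ : ∃ π : FreeAbelianGroup (∀ i, (W i).toAffine.Point) →+
      FreeAbelianGroup (∀ i, (W i).toAffine.Point) ⧸ RatEqPi W, (∀ z, z ∈ RatEqPi W → π z = 0) ∧
      π = QuotientAddGroup.mk' (RatEqPi W) :=
    ⟨QuotientAddGroup.mk' (RatEqPi W), fun z hz => by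
      rw [QuotientAddGroup.mk'_apply, QuotientAddGroup.eq_zero_iff]
      exact hz, rfl⟩
  obtain ⟨G, hG⟩ : ∃ G : (W k).toAffine.Point → FreeAbelianGroup (∀ i, (W i).toAffine.Point) ⧸
      RatEqPi W, ∀ x, G x = π (FreeAbelianGroup.of (Function.update c k x)) := ⟨_, fun x => rfl⟩
  have hadd : ∀ x x', G (x + x') = G x + G x' - G 0 := by
    intro x x'
    have h1 := hπ _ (single_rel W c k x x')
    simp only [map_add, map_sub] at h1
    rw [← hG, ← hG, ← hG, ← hG] at h1
    rw [← sub_eq_zero, ← neg_eq_zero, ← h1]
    abel
  have hGc : G (c k) = π (FreeAbelianGroup.of c) := by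
    rw [hG, Function.update_eq_self]
  refine ⟨AddMonoidHom.mk' (fun a => G (c k + a) - G (c k)) ?_, ?_⟩
  · intro a a'
    rw [hadd, hadd, hadd, hadd]
    abel
  · intro a
    change G (c k + a) - G (c k) = _
    rw [← hπe, map_sub, ← hG, hGc]

/-- Zero-cycles of degree zero and sum zero supported on the translate by `c`. -/
theorem product_shift (W : Fin n → WeierstrassCurve K) [∀ i, (W i).IsElliptic]
    (A : ∀ k, AddSubgroup (W k).toAffine.Point)
    (hA : ∀ k k', k ≠ k' → ∀ a ∈ A k, ∀ b ∈ A k', TorsSym (W k) (W k') a b)
    (c : ∀ i, (W i).toAffine.Point)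
    (z : FreeAbelianGroup (∀ k, (W k).toAffine.Point))
    (hz : z ∈ AddSubgroup.closure (FreeAbelianGroup.of '' {x | ∀ k, x k - c k ∈ A k}))
    (hdeg : degree W z = 0) (halb : albanese W z = 0) : z ∈ TorsPi W := by
  choose η hη using sh_hom W c
  set π := QuotientAddGroup.mk' (RatEqPi W) with hπ
  have hkey : ∀ z ∈ AddSubgroup.closure (FreeAbelianGroup.of '' {x | ∀ k, x k - c k ∈ A k}),
      ∃ t ∈ TorsPi W, π z = (∑ k, η k (albanese W z k - degree W z • c k))
        + degree W z • π (FreeAbelianGroup.of c) + π t := by
    intro z hz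
    induction hz using AddSubgroup.closure_induction with
    | mem z hz =>
      obtain ⟨x, hx, rfl⟩ := hz
      have hs := sh_split W c (x - c) (fun k k' hk => hA k k' hk _ (hx k) _ (hx k'))
      refine ⟨_, hs, ?_⟩
      have h1 : albanese W (FreeAbelianGroup.of x) = x := FreeAbelianGroup.lift_apply_of _ _
      have h2 : degree W (FreeAbelianGroup.of x) = 1 := FreeAbelianGroup.lift_apply_of _ _
      rw [h1, h2, one_smul, map_sub, map_sub, map_sum, add_sub_cancel]
      simp only [hη, one_smul, Pi.sub_apply]
      abel
    | zero =>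
      refine ⟨0, zero_mem _, ?_⟩
      simp
    | add z z' _ _ hz hz' =>
      obtain ⟨t, ht, e⟩ := hz
      obtain ⟨t', ht', e'⟩ := hz'
      refine ⟨t + t', add_mem ht ht', ?_⟩
      have e2 : ∀ k, albanese W (z + z') k - degree W (z + z') • c k =
          (albanese W z k - degree W z • c k) + (albanese W z' k - degree W z' • c k) := by
        intro k
        rw [map_add (albanese W), map_add (degree W), Pi.add_apply, add_smul]
        abel
      simp only [e2]
      rw [map_add, e, e', map_add (degree W), map_add π, add_smul]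
      simp only [map_add, Finset.sum_add_distrib]
      abel
    | neg z _ hz =>
      obtain ⟨t, ht, e⟩ := hz
      refine ⟨-t, neg_mem ht, ?_⟩
      have e2 : ∀ k, albanese W (-z) k - degree W (-z) • c k =
          -(albanese W z k - degree W z • c k) := by
        intro k
        rw [map_neg (albanese W), map_neg (degree W), Pi.neg_apply, neg_smul]
        abel
      simp only [e2]
      rw [map_neg, e, map_neg (degree W), map_neg π, neg_smul]
      simp only [map_neg, Finset.sum_neg_distrib]
      abel
  obtain ⟨t, ht, e⟩ := hkey z hz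
  rw [hdeg, halb, zero_smul] at e
  simp only [Pi.zero_apply, zero_smul, sub_zero, map_zero, Finset.sum_const_zero, zero_add] at e
  rw [← sub_eq_zero, ← map_sub, hπ, QuotientAddGroup.mk'_apply, QuotientAddGroup.eq_zero_iff] at e
  have h2 := add_mem (RatEqPi_le_TorsPi W e) ht
  rwa [sub_add_cancel] at h2

end Pool.Agent.ZC
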