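import Pool.Agent.Lib.MP_a1cc03_ag.QH.Family
import Pool.Agent.Lib.MP_a1cc03_ag.Y2_Family
import Pool.Agent.Lib.MP_a1cc03_ag.LC.QMain
import Pool.Agent.Lib.MP_a1cc03_ag.QH.Shift

/-! # Zero-cycles on quotients of products of elliptic curves by arbitrary finite groups -/

noncomputable section

namespace Pool.Agent.ZC

open WeierstrassCurve

section General

variable {K : Type} [Field K] [DecidableEq K] {ι : Type} [DecidableEq ι]
  (E : ι → WeierstrassCurve K) {n : ℕ} (j : Fin n → ι)

/-- Zero-cycles on quotients. -/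
theorem quotient_hom {G : Type} [Group G] [Fintype G] [MulAction G (∀ k, (E (j k)).toAffine.Point)]
    (A : ∀ i, AddSubgroup (E i).toAffine.Point)
    (hcl : ∀ i i' (φ : (E i).toAffine.Point →+ (E i').toAffine.Point), IsHom (E i) (E i') φ →
        ∀ a ∈ A i, φ a ∈ A i')
    (c : ∀ k, (E (j k)).toAffine.Point)
    (hprod : ∀ z : FreeAbelianGroup (∀ k, (E (j k)).toAffine.Point),
        z ∈ AddSubgroup.closure (FreeAbelianGroup.of '' {x | ∀ k, x k - c k ∈ A (j k)}) →
        degree (fun k => E (j k)) z = 0 → albanese (fun k => E (j k)) z = 0 →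
        ∃ N : ℕ, 0 < N ∧ N • z ∈ RatEqPi (fun k => E (j k)))
    (R : G → ∀ l k, (E (j l)).toAffine.Point →+ (E (j k)).toAffine.Point)
    (t : G → ∀ k, (E (j k)).toAffine.Point)
    (hR : ∀ g l k, IsHom (E (j l)) (E (j k)) (R g l k))
    (hG : ∀ (g : G) (x : ∀ k, (E (j k)).toAffine.Point) (k : Fin n),
      (g • x) k = ∑ l, R g l k (x l) + t g k)
    (hc : ∀ (g : G) (k : Fin n), (g • c) k - c k ∈ A (j k))
    (z : FreeAbelianGroup (∀ k, (E (j k)).toAffine.Point))
    (hz : z ∈ AddSubgroup.closure (FreeAbelianGroup.of '' {x | ∀ k, x k - c k ∈ A (j k)}))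
    (hdeg : degree (fun k => E (j k)) z = 0)
    (halb : ∃ N : ℕ, 0 < N ∧ ∀ k, N • ∑ g, ∑ l, R g l k (albanese (fun k => E (j k)) z l) = 0) :
    ∃ N : ℕ, 0 < N ∧ N • z ∈ RatEqPi (fun k => E (j k)) ⊔ PointRel E j G := by
  classical
  obtain ⟨N₀, hN₀, halb⟩ := halb
  set w : FreeAbelianGroup (∀ k, (E (j k)).toAffine.Point) :=
    ∑ g : G, FreeAbelianGroup.map (fun x => g • x) z with hw
  have hmem : ∀ g : G, FreeAbelianGroup.map (fun x => g • x) z ∈
      AddSubgroup.closure (FreeAbelianGroup.of '' {x | ∀ k, x k - c k ∈ A (j k)}) := by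
    intro g
    have h1 := AddSubgroup.mem_map_of_mem (FreeAbelianGroup.map fun x => g • x) hz
    rw [AddMonoidHom.map_closure] at h1
    refine AddSubgroup.closure_mono ?_ h1
    rintro _ ⟨_, ⟨x, hx, rfl⟩, rfl⟩
    rw [FreeAbelianGroup.map_of_apply]
    refine ⟨g • x, fun k => ?_, rfl⟩
    have h2 : (g • x) k - c k = ∑ l, R g l k (x l - c l) + ((g • c) k - c k) := by
      simp only [hG, map_sub, Finset.sum_sub_distrib]
      abel
    rw [h2]
    exact add_mem (sum_mem fun l _ => hcl _ _ _ (hR g l k) _ (hx l)) (hc g k)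
  have hdegg : ∀ (g : G) (y : FreeAbelianGroup (∀ k, (E (j k)).toAffine.Point)),
      degree (fun k => E (j k)) (FreeAbelianGroup.map (fun x => g • x) y)
        = degree (fun k => E (j k)) y := by
    intro g y
    induction y using FreeAbelianGroup.induction_on with
    | zero => simp
    | of x => rw [FreeAbelianGroup.map_of_apply]; simp [degree]
    | neg x h => rw [map_neg, map_neg, map_neg, h]
    | add x y hx hy => rw [map_add, map_add, map_add, hx, hy]
  have halbg : ∀ (g : G) (y : FreeAbelianGroup (∀ k, (E (j k)).toAffine.Point)) (k : Fin n),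
      albanese (fun k => E (j k)) (FreeAbelianGroup.map (fun x => g • x) y) k
        = ∑ l, R g l k (albanese (fun k => E (j k)) y l) + degree (fun k => E (j k)) y • t g k := by
    intro g y k
    induction y using FreeAbelianGroup.induction_on with
    | zero => simp
    | of x =>
      rw [FreeAbelianGroup.map_of_apply]
      simp only [albanese, degree, FreeAbelianGroup.lift_apply_of]
      rw [hG, one_smul]
    | neg x h =>
      simp only [map_neg, Pi.neg_apply, h, Finset.sum_neg_distrib, neg_smul, neg_add]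
    | add x y hx hy =>
      simp only [map_add, Pi.add_apply, hx, hy, Finset.sum_add_distrib, add_smul]
      abel
  obtain ⟨N, hN, h⟩ := hprod (N₀ • w) (nsmul_mem (sum_mem fun g _ => hmem g) _)
    (by rw [map_nsmul, hw, map_sum]
        simp only [hdegg, hdeg, Finset.sum_const_zero, smul_zero])
    (by
      funext k
      rw [map_nsmul, hw, map_sum, Pi.smul_apply, Finset.sum_apply]
      simp only [halbg, hdeg, zero_smul, add_zero]
      exact halb k)
  refine ⟨N * N₀ * Fintype.card G, Nat.mul_pos (Nat.mul_pos hN hN₀) Fintype.card_pos, ?_⟩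
  have hsplit : (N * N₀ * Fintype.card G) • z
      = N • (N₀ • w) + (N * N₀) • ∑ g : G, (z - FreeAbelianGroup.map (fun x => g • x) z) := by
    rw [Finset.sum_sub_distrib, Finset.sum_const, Finset.card_univ, ← hw, smul_smul, ← smul_add,
      add_sub_cancel, smul_smul]
  rw [hsplit]
  exact add_mem (AddSubgroup.mem_sup_left h) (AddSubgroup.mem_sup_right
    (nsmul_mem (sum_mem fun g _ => LC.point_sub_map_mem E j g z) _))

end General

/-- The final theorem for families with `p`-integral `j`-invariants and groups closed under all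
homomorphisms. -/
theorem main_product_hom [DecidableEq (AlgebraicClosure ℚ)] {p : ℕ} (hp : p.Prime) (hp2 : p ≠ 2)
    {ι : Type} (E : ι → WeierstrassCurve (AlgebraicClosure ℚ)) [∀ i, (E i).IsElliptic]
    (hj : ∀ i, PIntegral p (E i).j) (i₀ : ι) (P : (E i₀).toAffine.Point) :
    ∃ A : ∀ i, AddSubgroup (E i).toAffine.Point,
      P ∈ A i₀ ∧ (∀ i, ∃ u : ℕ → A i, LinearIndependent ℤ u) ∧
      (∀ i (a : (E i).toAffine.Point) (m : ℕ), 0 < m → m • a ∈ A i → a ∈ A i) ∧
      (∀ i i' (φ : (E i).toAffine.Point →+ (E i').toAffine.Point), IsHom (E i) (E i') φ →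
        ∀ a ∈ A i, φ a ∈ A i') ∧
      ∀ (n : ℕ) (j : Fin n → ι) (c : ∀ k, (E (j k)).toAffine.Point)
        (z : FreeAbelianGroup (∀ k, (E (j k)).toAffine.Point)),
        z ∈ AddSubgroup.closure (FreeAbelianGroup.of '' {x | ∀ k, x k - c k ∈ A (j k)}) →
        degree (fun k => E (j k)) z = 0 → albanese (fun k => E (j k)) z = 0 →
        ∃ N : ℕ, 0 < N ∧ N • z ∈ RatEqPi (fun k => E (j k)) := by
  obtain ⟨A, hP, hsat, hrk, htors⟩ := general_family_p hp hp2 E hj i₀ P
  obtain ⟨A', hle, hsat', hcl, htors'⟩ := hom_family E A htors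
  refine ⟨A', hle i₀ hP, fun i => ?_, hsat', hcl, fun n j c z hz hdeg halb => ?_⟩
  · obtain ⟨u, hu⟩ := hrk i
    refine ⟨fun m => ⟨u m, hle i (u m).2⟩, ?_⟩
    exact hu.map' (AddSubgroup.inclusion (hle i)).toIntLinearMap
      (LinearMap.ker_eq_bot.2 (AddSubgroup.inclusion_injective (hle i)))
  · exact product_shift (fun k => E (j k)) (fun k => A' (j k))
      (fun k k' _ a ha b hb => htors' (j k) (j k') a ha b hb) c z hz hdeg halb

end Pool.Agent.ZC
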