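import Pool.Agent.Lib.MP_a1cc03_ag.QH.Defs
import Pool.Agent.Lib.MP_a1cc03_ag.B4_Tors
import Pool.Agent.Lib.MP_a1cc03_ag.V2a_Add
import Pool.Agent.Lib.MP_a1cc03_ag.A0_Defs

/-! # Families of subgroups closed under all homomorphisms -/

noncomputable section

namespace Pool.Agent.ZC

open WeierstrassCurve

section Push

variable {K : Type} [Field K] [DecidableEq K]

theorem IsHom.id (W : WeierstrassCurve K) : IsHom W W (AddMonoidHom.id _) :=
  fun _ _ _ _ P => ⟨P, fun _ _ h => h⟩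

theorem IsHom.comp {W₁ W₂ W₃ : WeierstrassCurve K} {ψ : W₂.toAffine.Point →+ W₃.toAffine.Point}
    {φ : W₁.toAffine.Point →+ W₂.toAffine.Point} (hψ : IsHom W₂ W₃ ψ) (hφ : IsHom W₁ W₂ φ) :
    IsHom W₁ W₃ (ψ.comp φ) := by
  intro F _ _ hF P
  obtain ⟨Q, hQ⟩ := hφ F hF P
  obtain ⟨R, hR⟩ := hψ F hF Q
  exact ⟨R, fun v a h => hR v _ (hQ v a h)⟩

/-- push-forward of rational equivalence -/
theorem ratEq_hom {W₁ W₂ W₁' W₂' : WeierstrassCurve K} {φ : W₁.toAffine.Point →+ W₁'.toAffine.Point}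
    {ψ : W₂.toAffine.Point →+ W₂'.toAffine.Point} (hφ : IsHom W₁ W₁' φ) (hψ : IsHom W₂ W₂' ψ)
    {z : FreeAbelianGroup (W₁.toAffine.Point × W₂.toAffine.Point)} (hz : z ∈ RatEq W₁ W₂) :
    FreeAbelianGroup.map (Prod.map φ ψ) z ∈ RatEq W₁' W₂' := by
  unfold RatEq at hz
  induction hz using AddSubgroup.closure_induction with
  | mem x hx =>
    obtain ⟨F, hF, P, Q, s, hP, hQ, f, hf⟩ := hx
    by_cases hfin : (Function.support fun v : Place K F =>
        (v.ord f).untopD 0 • FreeAbelianGroup.of (s v)).Finite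
    · obtain ⟨P', hP'⟩ := hφ F hF P
      obtain ⟨Q', hQ'⟩ := hψ F hF Q
      have e : FreeAbelianGroup.map (Prod.map φ ψ) (∑ᶠ v : Place K F,
          (v.ord f).untopD 0 • FreeAbelianGroup.of (s v)) =
          ∑ᶠ v : Place K F, (v.ord f).untopD 0 • FreeAbelianGroup.of (Prod.map φ ψ (s v)) := by
        rw [AddMonoidHom.map_finsum _ hfin]
        refine finsum_congr fun v => ?_
        rw [map_zsmul, FreeAbelianGroup.map_of_apply]
      rw [e]
      apply AddSubgroup.subset_closure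
      exact IsDivisorOf.mk F hF P' Q' (fun v => Prod.map φ ψ (s v))
        (fun v => hP' v _ (hP v)) (fun v => hQ' v _ (hQ v)) f hf
    · rw [finsum_of_infinite_support hfin, map_zero]
      exact zero_mem _
  | zero => rw [map_zero]; exact zero_mem _
  | add x y _ _ hx hy => rw [map_add]; exact add_mem hx hy
  | neg x _ hx => rw [map_neg]; exact neg_mem hx

theorem torsSym_hom {W₁ W₂ W₁' W₂' : WeierstrassCurve K}
    {φ : W₁.toAffine.Point →+ W₁'.toAffine.Point}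
    {ψ : W₂.toAffine.Point →+ W₂'.toAffine.Point} (hφ : IsHom W₁ W₁' φ) (hψ : IsHom W₂ W₂' ψ)
    {a : W₁.toAffine.Point} {b : W₂.toAffine.Point} (h : TorsSym W₁ W₂ a b) :
    TorsSym W₁' W₂' (φ a) (ψ b) := by
  obtain ⟨N, hN, hz⟩ := h
  refine ⟨N, hN, ?_⟩
  have h1 := ratEq_hom hφ hψ hz
  rw [map_nsmul] at h1
  convert h1 using 2
  unfold sym
  simp only [map_add, map_sub, FreeAbelianGroup.map_of_apply, Prod.map_apply, map_zero]

omit [DecidableEq K] in
theorem torsSym_swap {W₁ W₂ : WeierstrassCurve K}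
    {a : W₁.toAffine.Point} {b : W₂.toAffine.Point} (h : TorsSym W₁ W₂ a b) :
    TorsSym W₂ W₁ b a := by
  obtain ⟨N, hN, hz⟩ := h
  refine ⟨N, hN, ?_⟩
  have h1 := swap_mem hz
  rwa [map_nsmul, swap_sym] at h1

end Push

variable {K : Type} [Field K] [IsAlgClosed K] [CharZero K] [DecidableEq K]

theorem tors_left (W₁ W₂ : WeierstrassCurve K) [W₁.IsElliptic] [W₂.IsElliptic]
    (b : W₂.toAffine.Point) :
    ∃ H : AddSubgroup W₁.toAffine.Point, (∀ a, a ∈ H ↔ TorsSym W₁ W₂ a b) ∧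
      ∀ (a : W₁.toAffine.Point) (n : ℕ), 0 < n → n • a ∈ H → a ∈ H := by
  have hφ : ∃ φ : W₁.toAffine.Point →+
      (FreeAbelianGroup (W₁.toAffine.Point × W₂.toAffine.Point) ⧸ RatEq W₁ W₂),
      ∀ a, φ a = QuotientAddGroup.mk' (RatEq W₁ W₂) (sym W₁ W₂ a b) := by
    refine ⟨AddMonoidHom.mk' (fun a => QuotientAddGroup.mk' (RatEq W₁ W₂)
      (sym W₁ W₂ a b)) ?_, fun a => rfl⟩
    intro a a'
    have e1 := pair_add W₁ W₂ a a' b
    have e2 := pair_add W₁ W₂ a a' 0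
    have e3 := (RatEq W₁ W₂).sub_mem e2 e1
    rw [← map_add, ← sub_eq_zero, ← map_sub]
    rw [QuotientAddGroup.mk'_apply, QuotientAddGroup.eq_zero_iff]
    convert e3 using 1
    unfold sym
    abel
  obtain ⟨φ, hφ⟩ := hφ
  obtain ⟨H, hH, hsat⟩ := B4_tors_subgroup φ
  refine ⟨H, fun a => ?_, hsat⟩
  rw [hH, B4_torsSym_iff, hφ]

/-- saturation of a subgroup -/
def satur {B : Type} [AddCommGroup B] (S : AddSubgroup B) : AddSubgroup B where
  carrier := {x | ∃ m : ℕ, 0 < m ∧ m • x ∈ S}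
  add_mem' := by
    rintro a b ⟨N, hN, hNa⟩ ⟨M, hM, hMb⟩
    refine ⟨N * M, Nat.mul_pos hN hM, ?_⟩
    rw [smul_add]
    refine add_mem ?_ ?_
    · rw [mul_comm N M, mul_smul]
      exact AddSubgroup.nsmul_mem _ hNa M
    · rw [mul_smul]
      exact AddSubgroup.nsmul_mem _ hMb N
  zero_mem' := ⟨1, one_pos, by simp⟩
  neg_mem' := by
    rintro a ⟨N, hN, hNa⟩
    exact ⟨N, hN, by rw [smul_neg]; exact neg_mem hNa⟩

theorem mem_satur {B : Type} [AddCommGroup B] {S : AddSubgroup B} {x : B} :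
    x ∈ satur S ↔ ∃ m : ℕ, 0 < m ∧ m • x ∈ S := Iff.rfl

/-- Enlarge the subgroups so that they are closed under all homomorphisms. -/
theorem hom_family {ι : Type} (E : ι → WeierstrassCurve K) [∀ i, (E i).IsElliptic]
    (A : ∀ i, AddSubgroup (E i).toAffine.Point)
    (h : ∀ i j, ∀ a ∈ A i, ∀ b ∈ A j, TorsSym (E i) (E j) a b) :
    ∃ A' : ∀ i, AddSubgroup (E i).toAffine.Point, (∀ i, A i ≤ A' i) ∧
      (∀ i (a : (E i).toAffine.Point) (m : ℕ), 0 < m → m • a ∈ A' i → a ∈ A' i) ∧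
      (∀ i i' (φ : (E i).toAffine.Point →+ (E i').toAffine.Point), IsHom (E i) (E i') φ →
        ∀ a ∈ A' i, φ a ∈ A' i') ∧
      ∀ i j, ∀ a ∈ A' i, ∀ b ∈ A' j, TorsSym (E i) (E j) a b := by
  let S : ∀ i, Set (E i).toAffine.Point := fun i => {x | ∃ (k : ι)
    (φ : (E k).toAffine.Point →+ (E i).toAffine.Point) (a : (E k).toAffine.Point),
    IsHom (E k) (E i) φ ∧ a ∈ A k ∧ φ a = x}
  have hSS : ∀ i j, ∀ a ∈ S i, ∀ b ∈ S j, TorsSym (E i) (E j) a b := by
    rintro i j _ ⟨k, φ, a, hφ, ha, rfl⟩ _ ⟨l, ψ, b, hψ, hb, rfl⟩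
    exact torsSym_hom hφ hψ (h k l a ha b hb)
  have hext : ∀ i j (b : (E j).toAffine.Point), (∀ a ∈ S i, TorsSym (E i) (E j) a b) →
      ∀ a ∈ satur (AddSubgroup.closure (S i)), TorsSym (E i) (E j) a b := by
    intro i j b hb a ha
    obtain ⟨H, hH, hsat⟩ := tors_left (E i) (E j) b
    obtain ⟨m, hm, hma⟩ := ha
    have h1 : AddSubgroup.closure (S i) ≤ H := by
      rw [AddSubgroup.closure_le]
      intro x hx
      exact (hH x).2 (hb x hx)
    exact (hH a).1 (hsat a m hm (h1 hma))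
  refine ⟨fun i => satur (AddSubgroup.closure (S i)), ?_, ?_, ?_, ?_⟩
  · intro i a ha
    exact ⟨1, one_pos, by
      rw [one_smul]
      exact AddSubgroup.subset_closure ⟨i, AddMonoidHom.id _, a, IsHom.id _, ha, rfl⟩⟩
  · rintro i a m hm ⟨m', hm', h⟩
    exact ⟨m' * m, Nat.mul_pos hm' hm, by rwa [mul_smul]⟩
  · rintro i i' φ hφ a ⟨m, hm, h⟩
    refine ⟨m, hm, ?_⟩
    rw [← map_nsmul]
    have h2 := AddSubgroup.mem_map_of_mem φ h
    rw [AddMonoidHom.map_closure] at h2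
    refine AddSubgroup.closure_mono ?_ h2
    rintro _ ⟨_, ⟨k, ψ, b, hψ, hb, rfl⟩, rfl⟩
    exact ⟨k, φ.comp ψ, b, hφ.comp hψ, hb, rfl⟩
  · intro i j a ha b hb
    refine hext i j b (fun a' ha' => ?_) a ha
    refine torsSym_swap (hext j i a' (fun b' hb' => ?_) b hb)
    exact torsSym_swap (hSS i j a' ha' b' hb')

end Pool.Agent.ZC
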